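import Pool.Agent.H13.SR.Win
import Pool.Agent.H21.SR.Params

/-!
# The union bound over the hidden assignments, and cutting paths into pieces
-/

open Finset Pool.Agent.H73.Xor Pool.Agent.H21.SR

namespace Pool.Agent.H13.SR

section count

variable {n N : ℕ} {F : CNF n}

open Classical in
/-- the penalties -/
noncomputable def chi (π : Refutation F N) (κ : ℝ) (u : Fin N) (v : Fin n) (b : Bool) : ℝ :=
  if v ∈ vars (π.cl u) ∧ b = fv π u v then 1 else κ

lemma chi_nonneg {π : Refutation F N} {κ : ℝ} (hκ : 0 ≤ κ) (u : Fin N) (v : Fin n) (b : Bool) :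
    0 ≤ chi π κ u v b := by
  unfold chi
  split_ifs
  · exact zero_le_one
  · exact hκ

theorem count (π : Refutation F N) {t e : ℕ}
    (hW : ∀ Xs : Fin n → Bool, ∃ (u : Fin N) (X : Fin n → Bool) (D : Finset (Fin n)),
      Fal X (π.cl u) ∧ (vars (π.cl u))ᶜ.card ≤ t ∧ D.card ≤ e ∧ ∀ v, X v ≠ Xs v → v ∈ D)
    {κ : ℝ} (hκ : 0 < κ) (hκ1 : κ ≤ 1) : (2 : ℝ) ^ n * κ ^ (t + e) ≤ N * (1 + κ) ^ n := by
  classical
  choose u X D hX hC hD hdev using hW
  have hchi : ∀ Xs : Fin n → Bool, κ ^ (t + e) ≤ ∏ v, chi π κ (u Xs) v (Xs v) := by
    intro Xs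
    have h1 : ∏ v, (if v ∈ (vars (π.cl (u Xs)))ᶜ ∪ D Xs then κ else 1) ≤
        ∏ v, chi π κ (u Xs) v (Xs v) := by
      refine Finset.prod_le_prod (fun v _ => ?_) fun v _ => ?_
      · split_ifs <;> positivity
      · unfold chi
        split_ifs with h2 h3 h3
        · exact hκ1
        · exact le_rfl
        · exact le_rfl
        · exfalso
          apply h3
          rw [mem_union, not_or, mem_compl, not_not] at h2
          refine ⟨h2.1, ?_⟩
          rw [fv_eq (hX Xs) h2.1]
          by_contra hne
          exact h2.2 (hdev Xs v (fun h => hne h.symm))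
    refine le_trans ?_ h1
    rw [Finset.prod_ite, Finset.prod_const, Finset.prod_const_one, mul_one,
      Finset.filter_mem_eq_inter, univ_inter]
    refine pow_le_pow_of_le_one hκ.le hκ1 ?_
    exact (card_union_le _ _).trans (Nat.add_le_add (hC Xs) (hD Xs))
  calc (2 : ℝ) ^ n * κ ^ (t + e) = ∑ _Xs : Fin n → Bool, κ ^ (t + e) := by
        rw [Finset.sum_const, card_univ, Fintype.card_fun, Fintype.card_bool, Fintype.card_fin,
          nsmul_eq_mul]
        push_cast
        ring
    _ ≤ ∑ Xs : Fin n → Bool, ∏ v, chi π κ (u Xs) v (Xs v) := Finset.sum_le_sum fun Xs _ => hchi Xs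
    _ ≤ ∑ Xs : Fin n → Bool, ∑ u0 : Fin N, ∏ v, chi π κ u0 v (Xs v) := by
        refine Finset.sum_le_sum fun Xs _ => ?_
        exact Finset.single_le_sum (f := fun u0 : Fin N => ∏ v, chi π κ u0 v (Xs v))
          (fun u0 _ => Finset.prod_nonneg fun v _ => chi_nonneg hκ.le _ _ _) (mem_univ (u Xs))
    _ = ∑ u0 : Fin N, ∏ v : Fin n, ∑ b : Bool, chi π κ u0 v b := by
        rw [Finset.sum_comm]
        refine Finset.sum_congr rfl fun u0 _ => ?_
        have h1 := Finset.prod_univ_sum (fun _ : Fin n => (univ : Finset Bool))
          (fun (v : Fin n) b => chi π κ u0 v b)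
        rw [Fintype.piFinset_univ] at h1
        rw [h1]
    _ ≤ ∑ _u0 : Fin N, (1 + κ) ^ n := by
        refine Finset.sum_le_sum fun u0 _ => ?_
        have h1 : (1 + κ) ^ n = ∏ _v : Fin n, (1 + κ) := by
          rw [Finset.prod_const, card_univ, Fintype.card_fin]
        rw [h1]
        refine Finset.prod_le_prod (fun v _ => ?_) fun v _ => ?_
        · exact Finset.sum_nonneg fun b _ => chi_nonneg hκ.le _ _ _
        · rw [Fintype.sum_bool]
          unfold chi
          by_cases hv : v ∈ vars (π.cl u0)
          · cases hf : fv π u0 v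
            · simp [hv]
              linarith
            · simp [hv]
          · simp [hv]
            linarith
    _ = N * (1 + κ) ^ n := by
        rw [Finset.sum_const, card_univ, Fintype.card_fin, nsmul_eq_mul]

end count

section pieces

variable {α : Type*} [DecidableEq α]

/-- the entries of the piece `s` which occur at least twice in the path `g ++ s` -/
def again (g s : List α) : Finset α := s.toFinset.filter fun v => 2 ≤ (g ++ s).count v

lemma mem_again {g s : List α} {v : α} : v ∈ again g s ↔ v ∈ s ∧ 2 ≤ (g ++ s).count v := by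
  unfold again
  rw [mem_filter, List.mem_toFinset]

lemma again_subset {G g b c : List α} : again (G ++ g) b ⊆ again G (g ++ (b ++ c)) := by
  intro v hv
  rw [mem_again] at hv ⊢
  refine ⟨by simp [hv.1], ?_⟩
  have h1 := hv.2
  simp only [List.count_append] at h1 ⊢
  omega

/-- consecutive blocks with more than `h` repeated entries are fewer than the pieces -/
lemma blocks_lt {h : ℕ} : ∀ (L : List (List α)) (G g : List α) (B : List (List α)) (l1 : List α),
    L.flatten = g ++ (B.flatten ++ l1) →
    (∀ L1 s L2, L = L1 ++ s :: L2 → (again (G ++ L1.flatten) s).card ≤ h) →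
    (∀ B1 b B2, B = B1 ++ b :: B2 → h < (again (G ++ g ++ B1.flatten) b).card) → B ≠ [] →
    B.length + 1 ≤ L.length := by
  intro L
  induction L with
  | nil =>
    intro G g B l1 hL _ hB hne
    exfalso
    obtain ⟨b, B', rfl⟩ := List.exists_cons_of_ne_nil hne
    have h1 := hB [] b B' rfl
    simp only [List.flatten_nil, List.flatten_cons, List.append_assoc] at hL
    have h2 := hL.symm
    rw [List.append_eq_nil_iff, List.append_eq_nil_iff] at h2
    rw [h2.2.1] at h1
    simp [again] at h1
  | cons s L' ih =>
    intro G g B l1 hL hs hB hne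
    rw [List.flatten_cons, List.append_eq_append_iff] at hL
    have hs' : ∀ L1 t L2, L' = L1 ++ t :: L2 → (again (G ++ s ++ L1.flatten) t).card ≤ h := by
      intro L1 t L2 hL'
      have := hs (s :: L1) t L2 (by rw [hL']; rfl)
      rwa [List.flatten_cons, ← List.append_assoc] at this
    rcases hL with ⟨as, h1, h2⟩ | ⟨bs, h1, h2⟩
    · have := ih (G ++ s) as B l1 h2 hs' (fun B1 b B2 hb => by
        have h3 := hB B1 b B2 hb
        rw [h1] at h3
        simpa [List.append_assoc] using h3) hne
      rw [List.length_cons]
      omega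
    · obtain ⟨b, B', rfl⟩ := List.exists_cons_of_ne_nil hne
      have hb : h < (again (G ++ g) b).card := by
        have := hB [] b B' rfl
        simpa using this
      have hsc : (again G s).card ≤ h := by
        have := hs [] s L' rfl
        simpa using this
      rw [List.flatten_cons, List.append_assoc, List.append_eq_append_iff] at h2
      rcases h2 with ⟨as, h3, h4⟩ | ⟨bs', h3, h4⟩
      · exfalso
        have h5 : again (G ++ g) b ⊆ again G s := by
          rw [h1, h3]
          exact again_subset
        have := card_le_card h5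
        omega
      · have hG : G ++ s ++ bs' = G ++ g ++ b := by
          rw [h1, h3]
          simp [List.append_assoc]
        by_cases hB' : B' = []
        · subst hB'
          rcases L' with _ | ⟨s', L''⟩
          · exfalso
            simp only [List.flatten_nil, List.nil_append] at h4
            have h5 := h4.symm
            rw [List.append_eq_nil_iff] at h5
            rw [h5.1, List.append_nil] at h3
            have h6 : again (G ++ g) b ⊆ again G s := by
              rw [h1, h3]
              have := again_subset (G := G) (g := g) (b := bs) (c := [])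
              simpa using this
            have := card_le_card h6
            omega
          · simp
        · have := ih (G ++ s) bs' B' l1 h4 hs' (fun B1 c B2 hc => by
            have h5 := hB (b :: B1) c B2 (by rw [hc]; rfl)
            rw [hG]
            rwa [List.flatten_cons, ← List.append_assoc] at h5) hB'
          simp only [List.length_cons]
          omega

end pieces

section pieces'

variable {n : ℕ}

/-- the path can be cut into at most `r` consecutive pieces, in each of which at most `h` variables
are resolved on again -/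
def Cut (r h : ℕ) (l : List (Fin n)) : Prop :=
  ∃ L : List (List (Fin n)), L.length ≤ r ∧ L.flatten = l ∧
    ∀ L1 s L2, L = L1 ++ s :: L2 → (again L1.flatten s).card ≤ h

lemma Cut.blocks {r h s0 : ℕ} (hr : 1 ≤ r) {B : List (List (Fin n))} (hl : Cut r h B.flatten)
    (hB : ∀ b ∈ B, h + s0 < b.toFinset.card)
    (hfirst : ∀ b B', B = b :: B' → n ≤ b.toFinset.card + s0) : B.length ≤ r := by
  obtain ⟨L, h1, h2, h3⟩ := hl
  rcases B with _ | ⟨b0, B0⟩
  · simp
  · by_cases hne : B0 = []
    · subst hne
      simpa using hr
    · have h4 := hfirst b0 B0 rfl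
      have := blocks_lt (h := h) L [] b0 B0 [] (by simpa using h2) (by simpa using h3)
        (fun B1 b B2 hb => by
          have h5 : h + s0 < b.toFinset.card := hB b (by simp [hb])
          have h6 : b0.toFinset ∩ b.toFinset ⊆ again ([] ++ b0 ++ B1.flatten) b := by
            intro v hv
            rw [mem_inter, List.mem_toFinset, List.mem_toFinset] at hv
            rw [mem_again]
            refine ⟨hv.2, ?_⟩
            have h7 := List.one_le_count_iff.2 hv.1
            have h8 := List.one_le_count_iff.2 hv.2
            simp only [List.count_append, List.count_nil]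
            omega
          have h7 := card_le_card h6
          have h8 := card_union_add_card_inter b0.toFinset b.toFinset
          have h9 : (b0.toFinset ∪ b.toFinset).card ≤ n := by
            have := card_le_univ (b0.toFinset ∪ b.toFinset)
            rwa [Fintype.card_fin] at this
          omega) hne
      rw [List.length_cons]
      omega

lemma length_blocks_aux {h : ℕ} : ∀ {B : List (List (Fin n))}, (∀ b ∈ B, h < b.toFinset.card) →
    B.length * (h + 1) ≤ B.flatten.length := by
  intro B
  induction B with
  | nil => intro _; simp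
  | cons b B ih =>
    intro hB
    have h1 := ih fun b' hb' => hB b' (by simp [hb'])
    have h2 := hB b (by simp)
    have h3 := b.toFinset_card_le
    rw [List.length_cons, List.flatten_cons, List.length_append, add_mul, one_mul]
    omega

lemma length_blocks {h s0 : ℕ} {B : List (List (Fin n))} (hB : ∀ b ∈ B, h < b.toFinset.card)
    (hfirst : ∀ b B', B = b :: B' → n ≤ b.toFinset.card + s0) (hne : B ≠ []) :
    n + (B.length - 1) * (h + 1) ≤ B.flatten.length + s0 := by
  obtain ⟨b, B', rfl⟩ := List.exists_cons_of_ne_nil hne
  have h1 := hfirst b B' rfl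
  have h2 := length_blocks_aux fun b' hb' => hB b' (List.mem_cons_of_mem b hb')
  have h3 := b.toFinset_card_le
  rw [List.length_cons, List.flatten_cons, List.length_append, Nat.add_sub_cancel]
  omega

end pieces'

section main

variable {n M N : ℕ} {P : Sys (Fin n) M}

/-- the size bound for the formula of a system -/
theorem size_bound {R w p u' : ℕ} (hF : P.Flex R w) (hC : P.Covering p u') (hR : 2 * p ≤ R)
    (hp : 0 < p) (hw : ∀ j, w ≤ (P.T j).card) (π : Refutation P.cnf N) {h q : ℕ}
    (hq : ∀ (u : Fin N) (B : List (List (Fin n))), π.Path π.root u B.flatten →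
      (∀ b ∈ B, h < b.toFinset.card) → (∀ b B', B = b :: B' → n ≤ b.toFinset.card + (w * p + u')) →
      B.length ≤ q) {κ : ℝ} (hκ : 0 < κ) (hκ1 : κ ≤ 1) :
    (2 : ℝ) ^ n * κ ^ (h + 1 + w * p + u' + q * (w * p)) ≤ N * (1 + κ) ^ n := by
  refine count π (fun Xs => ?_) hκ hκ1
  obtain ⟨u, X, D, B, h1, h2, h2', h3, h4, h5, h6⟩ := walk_main (π := π) hF hC hR hp hw h Xs
  exact ⟨u, X, D, h3, h4, h5.trans (Nat.mul_le_mul_right _ (hq u B h1 h2 h2')), h6⟩

end main

end Pool.Agent.H13.SR
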