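import Pool.Agent.H21.SR.Walk

/-!
# The walk of an adversary with a persistent assignment and windows

The adversary has a total assignment `X`, equal to `Xs` at the start. The path is cut into windows.
Inside a window nothing is forgotten. Answers are the values of `X`, except when this destroys the
local consistency on the set of all known variables of the window; then the value of `X` is changed.
A window is closed when nearly all variables are known; then the adversary forgets everything which
is not in the present clause.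
-/

open Finset Pool.Agent.H73.Xor Pool.Agent.H21.SR

namespace Pool.Agent.H13.SR

variable {n M : ℕ} {P : Sys (Fin n) M}

section walk

variable {N : ℕ} (π : Refutation P.cnf N)

/-- the state of the walk: `A0` is the set of known variables at the start of the window, `B` the list
of the finished windows, `l1` the part of the path in the present window, `D` the set of changes in
the finished windows, `E` the set of changes in the present window. The first window contains nearly
all variables, the others more than `h` variables. -/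
structure St (w p u' h : ℕ) (Xs : Fin n → Bool) (u : Fin N) (X : Fin n → Bool)
    (A0 : Finset (Fin n)) (J : Finset (Fin M)) (D E : Finset (Fin n)) (B : List (List (Fin n)))
    (l1 : List (Fin n)) : Prop where
  path : π.Path π.root u (B.flatten ++ l1)
  blk : ∀ b ∈ B, h < b.toFinset.card
  first : ∀ b B', B = b :: B' → n ≤ b.toFinset.card + (w * p + u')
  fal : Fal X (π.cl u)
  sub : vars (π.cl u) ⊆ A0 ∪ l1.toFinset
  cons : P.Cons p (A0 ∪ l1.toFinset) X
  A0nil : B = [] → A0 = ∅
  A0card : A0.card + (h + 1 + w * p + u') ≤ n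
  full : (A0 ∪ l1.toFinset).card + (1 + w * p + u') ≤ n
  Jp : J.card < p
  JE : (P.cov J \ (A0 ∪ l1.toFinset)).card + E.card ≤ w * J.card
  Dcard : D.card ≤ B.length * (w * p)
  dev : ∀ v, X v ≠ Xs v → v ∈ D ∪ E

/-- the conclusion of the walk -/
def Concl (t wp s0 h : ℕ) (Xs : Fin n → Bool) : Prop :=
  ∃ (u : Fin N) (X : Fin n → Bool) (D : Finset (Fin n)) (B : List (List (Fin n))),
    π.Path π.root u B.flatten ∧ (∀ b ∈ B, h < b.toFinset.card) ∧
    (∀ b B', B = b :: B' → n ≤ b.toFinset.card + s0) ∧ Fal X (π.cl u) ∧
    (vars (π.cl u))ᶜ.card ≤ t ∧ D.card ≤ B.length * wp ∧ ∀ v, X v ≠ Xs v → v ∈ D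

variable {π}

lemma leaf_contra {w p u' h : ℕ} {Xs : Fin n → Bool} {u : Fin N} {X : Fin n → Bool}
    {A0 : Finset (Fin n)} {J : Finset (Fin M)} {D E : Finset (Fin n)} {B : List (List (Fin n))}
    {l1 : List (Fin n)} (hst : St π w p u' h Xs u X A0 J D E B l1) (hu : π.just u = none) :
    False := by
  obtain ⟨C, hC, hCu⟩ := π.leaf u hu
  obtain ⟨j, hj, hbad⟩ := cnf_row hC
  have hvars : P.T j ⊆ vars (π.cl u) := hj.trans (image_subset_image hCu)
  obtain ⟨x, hx, hxj⟩ := hst.cons {j} (by
    rw [card_singleton]
    have := hst.Jp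
    omega)
  apply hxj j (mem_singleton_self j)
  refine P.loc j X x (fun v hv => ?_) (hbad X fun l hl => hst.fal l (hCu hl))
  rw [hx v (hst.sub (hvars hv))]

/-- closing a window or going on -/
lemma close {w p u' h : ℕ} (hp : 0 < p) {Xs : Fin n → Bool} {u : Fin N} {X : Fin n → Bool}
    {A0 : Finset (Fin n)} {J : Finset (Fin M)} {D E : Finset (Fin n)} {B : List (List (Fin n))}
    {l1 : List (Fin n)}
    (path : π.Path π.root u (B.flatten ++ l1))
    (blk : ∀ b ∈ B, h < b.toFinset.card)
    (first : ∀ b B', B = b :: B' → n ≤ b.toFinset.card + (w * p + u'))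
    (fal : Fal X (π.cl u))
    (sub : vars (π.cl u) ⊆ A0 ∪ l1.toFinset)
    (cons : P.Cons p (A0 ∪ l1.toFinset) X)
    (A0nil : B = [] → A0 = ∅)
    (A0card : A0.card + (h + 1 + w * p + u') ≤ n)
    (Jp : J.card < p)
    (JE : (P.cov J \ (A0 ∪ l1.toFinset)).card + E.card ≤ w * J.card)
    (Dcard : D.card ≤ B.length * (w * p))
    (dev : ∀ v, X v ≠ Xs v → v ∈ D ∪ E) :
    Concl π (h + 1 + w * p + u') (w * p) (w * p + u') h Xs ∨
      ∃ A0' J' D' E' B' l1', St π w p u' h Xs u X A0' J' D' E' B' l1' := by
  classical
  by_cases hfull : (A0 ∪ l1.toFinset).card + (1 + w * p + u') ≤ n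
  · exact Or.inr ⟨A0, J, D, E, B, l1, path, blk, first, fal, sub, cons, A0nil, A0card, hfull, Jp, JE,
      Dcard, dev⟩
  · push Not at hfull
    have hpath : π.Path π.root u (B ++ [l1]).flatten := by
      simpa using path
    have hblk : ∀ b ∈ B ++ [l1], h < b.toFinset.card := by
      intro b hb
      rw [List.mem_append, List.mem_singleton] at hb
      rcases hb with hb | rfl
      · exact blk b hb
      · have := card_union_le A0 b.toFinset
        omega
    have hfirst : ∀ b B', B ++ [l1] = b :: B' → n ≤ b.toFinset.card + (w * p + u') := by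
      intro b B' hb
      rcases B with _ | ⟨b0, B0⟩
      · rw [List.nil_append, List.cons.injEq] at hb
        rw [← hb.1]
        rw [A0nil rfl, empty_union] at hfull
        omega
      · rw [List.cons_append, List.cons.injEq] at hb
        rw [← hb.1]
        exact first b0 B0 rfl
    have hE : E.card ≤ w * p := by
      have h2 : w * J.card ≤ w * p := Nat.mul_le_mul_left _ Jp.le
      omega
    have hD : (D ∪ E).card ≤ (B ++ [l1]).length * (w * p) := by
      rw [List.length_append, List.length_singleton, add_mul, one_mul]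
      exact (card_union_le _ _).trans (Nat.add_le_add Dcard hE)
    by_cases hA : (vars (π.cl u)).card + (h + 1 + w * p + u') ≤ n
    · right
      refine ⟨vars (π.cl u), ∅, D ∪ E, ∅, B ++ [l1], [], ?_, hblk, hfirst, fal, ?_, ?_, ?_, hA, ?_, ?_,
        ?_, hD, ?_⟩
      · simpa using hpath
      · simp
      · refine cons.mono ?_
        simpa using sub
      · intro hnil
        simp at hnil
      · rw [List.toFinset_nil, union_empty]
        omega
      · simpa using hp
      · simp [Sys.cov]
      · intro v hv
        rw [union_empty]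
        exact dev v hv
    · left
      refine ⟨u, X, D ∪ E, B ++ [l1], hpath, hblk, hfirst, fal, ?_, hD, dev⟩
      have := card_compl_add_card (vars (π.cl u))
      rw [Fintype.card_fin] at this
      omega

lemma step {R w p u' h : ℕ} (hF : P.Flex R w) (hC : P.Covering p u') (hR : 2 * p ≤ R) (hp : 0 < p)
    {Xs : Fin n → Bool} {u : Fin N} {X : Fin n → Bool}
    {A0 : Finset (Fin n)} {J : Finset (Fin M)} {D E : Finset (Fin n)} {B : List (List (Fin n))}
    {l1 : List (Fin n)} (hst : St π w p u' h Xs u X A0 J D E B l1)
    {v0 : Fin n} {p' q' : Fin N} (hu : π.just u = some (v0, p', q')) :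
    Concl π (h + 1 + w * p + u') (w * p) (w * p + u') h Xs ∨
      ∃ X' A0' J' D' E' B' l1', St π w p u' h Xs (if X' v0 = true then q' else p') X' A0' J' D' E'
        B' l1' := by
  classical
  have hlmem : (l1 ++ [v0]).toFinset = insert v0 l1.toFinset := by
    ext v; simp
  have hpath : ∀ e : Bool, π.Path π.root (if e = true then q' else p')
      (B.flatten ++ (l1 ++ [v0])) := by
    intro e
    rw [← List.append_assoc]
    exact path_child hu hst.path e
  set S := A0 ∪ l1.toFinset with hS
  by_cases hv0 : v0 ∈ S
  · have hSS : A0 ∪ (l1 ++ [v0]).toFinset = S := by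
      rw [hlmem, union_insert, ← hS, insert_eq_self.2 hv0]
    have g1 : vars (π.cl (if X v0 = true then q' else p')) ⊆ A0 ∪ (l1 ++ [v0]).toFinset := by
      rw [hSS]
      refine (vars_child hu (X v0)).trans ?_
      exact insert_subset hv0 hst.sub
    have g2 : P.Cons p (A0 ∪ (l1 ++ [v0]).toFinset) X := by
      rw [hSS]; exact hst.cons
    have g3 : (P.cov J \ (A0 ∪ (l1 ++ [v0]).toFinset)).card + E.card ≤ w * J.card := by
      rw [hSS]; exact hst.JE
    rcases close hp (hpath _) hst.blk hst.first (fal_next π hu hst.fal) g1 g2 hst.A0nil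
      hst.A0card hst.Jp g3 hst.Dcard hst.dev with h1 | ⟨A0', J', D', E', B', l1', h1⟩
    · exact Or.inl h1
    · exact Or.inr ⟨X, A0', J', D', E', B', l1', h1⟩
  · have hSS : A0 ∪ (l1 ++ [v0]).toFinset = insert v0 S := by
      rw [hlmem, union_insert, ← hS]
    have hfull : S.card + (1 + w * p + u') ≤ n := hst.full
    have hvu : v0 ∉ vars (π.cl u) := fun hc => hv0 (hst.sub hc)
    rcases adv_step hF hC hR (subset_refl S) (by rw [Fintype.card_fin]; omega) hst.cons hv0 hst.Jp
      hst.JE (X v0) with hb | ⟨hb, J', hJ', hJE'⟩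
    · rw [Function.update_eq_self] at hb
      have g1 : vars (π.cl (if X v0 = true then q' else p')) ⊆ A0 ∪ (l1 ++ [v0]).toFinset := by
        rw [hSS]
        exact (vars_child hu (X v0)).trans (insert_subset_insert _ hst.sub)
      have g2 : P.Cons p (A0 ∪ (l1 ++ [v0]).toFinset) X := by
        rw [hSS]; exact hb
      have g3 : (P.cov J \ (A0 ∪ (l1 ++ [v0]).toFinset)).card + E.card ≤ w * J.card := by
        rw [hSS]
        refine le_trans (Nat.add_le_add_right (card_le_card ?_) _) hst.JE
        exact sdiff_subset_sdiff subset_rfl (subset_insert _ _)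
      rcases close hp (hpath _) hst.blk hst.first (fal_next π hu hst.fal) g1 g2 hst.A0nil
        hst.A0card hst.Jp g3 hst.Dcard hst.dev with h1 | ⟨A0', J', D', E', B', l1', h1⟩
      · exact Or.inl h1
      · exact Or.inr ⟨X, A0', J', D', E', B', l1', h1⟩
    · have hfal : Fal (Function.update X v0 (!X v0)) (π.cl u) := by
        intro l' hl'
        have hne : l'.1 ≠ v0 := by
          rintro rfl
          exact hvu (mem_image.2 ⟨l', hl', rfl⟩)
        rw [Function.update_of_ne hne]
        exact hst.fal l' hl'
      have g1 : vars (π.cl (if (Function.update X v0 (!X v0)) v0 = true then q' else p')) ⊆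
          A0 ∪ (l1 ++ [v0]).toFinset := by
        rw [hSS]
        exact (vars_child hu _).trans (insert_subset_insert _ hst.sub)
      have g2 : P.Cons p (A0 ∪ (l1 ++ [v0]).toFinset) (Function.update X v0 (!X v0)) := by
        rw [hSS]; exact hb
      have g3 : (P.cov J' \ (A0 ∪ (l1 ++ [v0]).toFinset)).card + (insert v0 E).card ≤
          w * J'.card := by
        rw [hSS]
        have := card_insert_le v0 E
        omega
      have g4 : ∀ v, Function.update X v0 (!X v0) v ≠ Xs v → v ∈ D ∪ insert v0 E := by
        intro v hv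
        by_cases hvv : v = v0
        · subst hvv
          exact mem_union_right _ (mem_insert_self _ _)
        · rw [Function.update_of_ne hvv] at hv
          have := hst.dev v hv
          rw [mem_union] at this ⊢
          exact this.imp_right (mem_insert_of_mem)
      rcases close hp (hpath _) hst.blk hst.first (fal_next π hu hfal) g1 g2 hst.A0nil
        hst.A0card hJ' g3 hst.Dcard g4 with h1 | ⟨A0', J'', D', E', B', l1', h1⟩
      · exact Or.inl h1
      · exact Or.inr ⟨_, A0', J'', D', E', B', l1', h1⟩

lemma walk_aux {R w p u' h : ℕ} (hF : P.Flex R w) (hC : P.Covering p u') (hR : 2 * p ≤ R)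
    (hp : 0 < p) {Xs : Fin n → Bool} : ∀ (m : ℕ) (u : Fin N) (X : Fin n → Bool)
    (A0 : Finset (Fin n)) (J : Finset (Fin M)) (D E : Finset (Fin n)) (B : List (List (Fin n)))
    (l1 : List (Fin n)), u.1 ≤ m → St π w p u' h Xs u X A0 J D E B l1 →
    Concl π (h + 1 + w * p + u') (w * p) (w * p + u') h Xs := by
  classical
  intro m
  induction m with
  | zero =>
    intro u X A0 J D E B l1 hm hst
    rcases hu : π.just u with _ | ⟨v0, p', q'⟩
    · exact (leaf_contra hst hu).elim
    · obtain ⟨hp, -, -, -⟩ := π.step u v0 p' q' hu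
      have : p'.1 < u.1 := hp
      omega
  | succ m ih =>
    intro u X A0 J D E B l1 hm hst
    rcases hu : π.just u with _ | ⟨v0, p', q'⟩
    · exact (leaf_contra hst hu).elim
    · obtain ⟨hp1, hq1, -, -⟩ := π.step u v0 p' q' hu
      have hp' : p'.1 < u.1 := hp1
      have hq' : q'.1 < u.1 := hq1
      rcases step hF hC hR hp hst hu with h1 | ⟨X', A0', J', D', E', B', l1', h1⟩
      · exact h1
      · refine ih _ X' A0' J' D' E' B' l1' ?_ h1
        split_ifs <;> omega

/-- the walk of the adversary with the hidden assignment `Xs` -/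
theorem walk_main {R w p u' : ℕ} (hF : P.Flex R w) (hC : P.Covering p u') (hR : 2 * p ≤ R)
    (hp : 0 < p) (hw : ∀ j, w ≤ (P.T j).card) (h : ℕ) (Xs : Fin n → Bool) :
    Concl π (h + 1 + w * p + u') (w * p) (w * p + u') h Xs := by
  classical
  have hvars : vars (π.cl π.root) = ∅ := by
    rw [π.root_empty]; rfl
  have hfal : Fal Xs (π.cl π.root) := by
    intro l hl
    rw [π.root_empty] at hl
    simp at hl
  by_cases hn : h + 1 + w * p + u' ≤ n
  · refine walk_aux hF hC hR hp N π.root Xs ∅ ∅ ∅ ∅ [] [] π.root.2.le
      ⟨.nil _, by simp, by simp, hfal, ?_, ?_, fun _ => rfl, by simpa using hn, by simp; omega,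
        by simpa using hp, ?_, by simp, fun v hv => absurd rfl hv⟩
    · rw [hvars]; simp
    · intro I hI
      obtain ⟨x, -, hx⟩ := hF I (by omega) univ (fun j _ => by
        rw [inter_univ]; exact hw j) Xs
      exact ⟨x, by simp, hx⟩
    · simp [Sys.cov]
  · refine ⟨π.root, Xs, ∅, [], .nil _, by simp, by simp, hfal, ?_, by simp,
      fun v hv => absurd rfl hv⟩
    rw [hvars]
    simp
    omega

end walk

end Pool.Agent.H13.SR
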